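import Mathlib
import Pool.Agent.Q122.JT.Comb
import Pool.Agent.Q122.JT.Lin
import Pool.Agent.Q122.JT.Main

/-! # MP_de5a23_al: the contiguous partition of a non-unimodal Hilbert function is not a
Jordan type -/

set_option autoImplicit false

namespace Pool.Agent.Results.MP_de5a23_al.NonUnimodal

open Pool.Agent.Q122.JT IsLocalRing

universe u v

/-- Let `K` be a local algebra of finite dimension over a field `k` (for example a local Artinian
Gorenstein quotient of a power series ring over `k`) whose Hilbert function `H` is not unimodal,
and let `l` be an element of the maximal ideal (for example a linear form), with Jordan type `P`.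
Then `P` is not the contiguous partition of `H`, and does not dominate it. -/
theorem result (k : Type u) (K : Type v) [Field k] [CommRing K] [IsLocalRing K] [Algebra k K]
    [FiniteDimensional k K] (l : K) (hl : l ∈ maximalIdeal K) (P : Multiset ℕ)
    (hP : IsJordanType (mulEnd k l) P) (N : ℕ) (h0 : ∀ i, N ≤ i → hilb k K i = 0)
    (hN : ∀ i, hilb k K i ≤ N) (hH : ¬ Unimodal (hilb k K)) :
    P ≠ Pc (hilb k K) N ∧ ¬ Dom P (Pc (hilb k K) N) := by
  have h : ¬ Dom P (Pc (hilb k K) N) := fun h => hH (main hl hP h0 hN h).1
  exact ⟨fun he => h (he ▸ fun s => le_rfl), h⟩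

end Pool.Agent.Results.MP_de5a23_al.NonUnimodal
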